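import Pool.Agent.P.MP_fd346d_co.Template

/-! The Borsuk-Ulam theorem for odd continuous maps on the unit sphere of the sup norm. -/

set_option autoImplicit false

namespace Pool.Agent.P.MP_56563a_an
open Finset Metric

theorem norm_dir {E : Type} [NormedAddCommGroup E] [NormedSpace ℝ E] (x z : E) (hx : x ≠ 0)
    (hz : z ≠ 0) : ‖‖x‖⁻¹ • x - ‖z‖⁻¹ • z‖ ≤ 2 * ‖x - z‖ / ‖x‖ := by
  have a := norm_pos_iff.2 hx
  have b := norm_pos_iff.2 hz
  have e : ‖x‖⁻¹ • x - ‖z‖⁻¹ • z = ‖x‖⁻¹ • (x - z) + (‖x‖⁻¹ - ‖z‖⁻¹) • z := by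
    rw [smul_sub, sub_smul]; abel
  have h1 : ‖(‖x‖⁻¹ - ‖z‖⁻¹) • z‖ = |‖z‖ - ‖x‖| / ‖x‖ := by
    rw [norm_smul, Real.norm_eq_abs]
    have : ‖x‖⁻¹ - ‖z‖⁻¹ = (‖z‖ - ‖x‖) / (‖x‖ * ‖z‖) := by field_simp
    rw [this, abs_div, abs_of_pos (mul_pos a b)]
    field_simp
  have h2 : |‖z‖ - ‖x‖| ≤ ‖x - z‖ := by
    rw [norm_sub_rev]; exact abs_norm_sub_norm_le z x
  have h3 : ‖‖x‖⁻¹ • (x - z)‖ = ‖x - z‖ / ‖x‖ := by
    rw [norm_smul, norm_inv, norm_norm]; field_simp
  rw [e]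
  refine (norm_add_le _ _).trans ?_
  rw [h1, h3, ← add_div]
  gcongr
  linarith

theorem dir_mem {E : Type} [NormedAddCommGroup E] [NormedSpace ℝ E] {x : E} (hx : x ≠ 0) :
    ‖x‖⁻¹ • x ∈ sphere (0 : E) 1 := by
  rw [mem_sphere_zero_iff_norm, norm_smul, norm_inv, norm_norm,
    inv_mul_cancel₀ (norm_pos_iff.2 hx).ne']

theorem cover {κ : Type} [Fintype κ] [Nonempty κ] (h : (κ → ℝ) → κ → ℝ)
    (hc : ContinuousOn h (sphere 0 1)) (ho : ∀ x, h (-x) = -h x) :
    ∃ x ∈ sphere (0 : κ → ℝ) 1, ∀ i, h x i ≤ 0 := by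
  by_contra hcon
  push Not at hcon
  set t := Fintype.card κ with ht
  have t1 : 1 ≤ t := Fintype.card_pos
  have t0 : (0 : ℝ) < t := by exact_mod_cast t1
  let e : κ ≃ Fin t := Fintype.equivFin κ
  have hK := isCompact_sphere (0 : κ → ℝ) 1
  obtain ⟨c', hc', hm⟩ := hK.exists_forall_le' (f := fun x => ∑ i, max (h x i) 0) (a := 0)
    (continuousOn_finsetSum _ fun i _ =>
      (ContinuousOn.sup ((continuous_apply i).comp_continuousOn hc) continuousOn_const))
    (fun x hx => by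
      obtain ⟨i, hi⟩ := hcon x hx
      exact sum_pos' (fun j _ => le_max_right _ _) ⟨i, mem_univ _, lt_max_of_lt_left hi⟩)
  have c0 : 0 < c' / t := div_pos hc' t0
  have hm' : ∀ x ∈ sphere (0 : κ → ℝ) 1, ∃ i, c' / t ≤ h x i := by
    intro x hx
    obtain ⟨i, -, hi⟩ := exists_le_of_sum_le (s := univ) (f := fun _ : κ => c' / t)
      (g := fun i => max (h x i) 0) univ_nonempty (by
        rw [sum_const, card_univ, nsmul_eq_mul, ← ht, mul_div_cancel₀ _ t0.ne']
        exact hm x hx)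
    refine ⟨i, ?_⟩
    rcases le_max_iff.1 hi with h1 | h1
    · exact h1
    · exact absurd h1 (not_le.2 c0)
  obtain ⟨δ, hδ, hu⟩ := Metric.uniformContinuousOn_iff.1
    (hK.uniformContinuousOn_of_continuous hc) _ c0
  obtain ⟨K, hKδ⟩ := exists_nat_gt (8 * t / δ)
  have K0 : (0 : ℝ) < K := lt_trans (by positivity) hKδ
  obtain ⟨V, -, H, D, hsym, -, hcol, hD, hbig⟩ :=
    Pool.Agent.P.MP_fd346d_co.exists_template t (K + t) t1
  let P : V → κ → ℝ := fun u i => (D (e i).castSucc u : ℝ) - D (Fin.last t) u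
  have hP : ∀ u (i : Fin (t + 1)), |(D i u : ℝ) - D (Fin.last t) u| ≤ ‖P u‖ := by
    intro u i
    refine Fin.lastCases ?_ (fun i => ?_) i
    · simp
    · have := norm_le_pi_norm (P u) (e.symm i)
      simpa [P] using this
  have hbigP : ∀ u v, H u v → (K : ℝ) ≤ ‖P u‖ := by
    intro u v huv
    obtain ⟨i, hi⟩ := hbig u
    obtain ⟨j, hj⟩ := hbig v
    have h1 : ((K + t : ℕ) : ℝ) ≤ D i u := by exact_mod_cast hi
    have h2 : ((K + t : ℕ) : ℝ) ≤ D j v := by exact_mod_cast hj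
    have h3 : |(D j u : ℝ) + D j v| ≤ 2 * t := by exact_mod_cast hD j u v huv
    have h4 := abs_le.1 (hP u i)
    have h5 := abs_le.1 (hP u j)
    have h6 := abs_le.1 h3
    push_cast at h1 h2
    linarith
  have hch : ∀ u, ∃ i, P u ≠ 0 → c' / t ≤ h (‖P u‖⁻¹ • P u) i := by
    intro u
    by_cases h0 : P u = 0
    · exact ⟨Classical.arbitrary κ, fun h => absurd h0 h⟩
    · obtain ⟨i, hi⟩ := hm' _ (dir_mem h0)
      exact ⟨i, fun _ => hi⟩
  choose c hcc using hch
  obtain ⟨u, v, huv, hcuv⟩ := hcol fun u => e (c u)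
  have hcuv' : c u = c v := e.injective hcuv
  have pu := hbigP u v huv
  have pv := hbigP v u (hsym _ _ huv)
  have nu : P u ≠ 0 := norm_pos_iff.1 (K0.trans_le pu)
  have nv : P v ≠ 0 := norm_pos_iff.1 (K0.trans_le pv)
  have nv' : -P v ≠ 0 := neg_ne_zero.2 nv
  have hs : ‖P u - -P v‖ ≤ 4 * t := by
    refine (pi_norm_le_iff_of_nonneg (by positivity)).2 fun i => ?_
    have h1 : |(D (e i).castSucc u : ℝ) + D (e i).castSucc v| ≤ 2 * t := by
      exact_mod_cast hD _ u v huv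
    have h2 : |(D (Fin.last t) u : ℝ) + D (Fin.last t) v| ≤ 2 * t := by
      exact_mod_cast hD _ u v huv
    have h3 := abs_le.1 h1
    have h4 := abs_le.1 h2
    simp only [P, Pi.sub_apply, Pi.neg_apply, Real.norm_eq_abs]
    rw [abs_le]
    constructor <;> linarith
  have hd : dist (‖P u‖⁻¹ • P u) (‖-P v‖⁻¹ • -P v) < δ := by
    rw [dist_eq_norm]
    refine (norm_dir _ _ nu nv').trans_lt ?_
    rw [div_lt_iff₀ (K0.trans_le pu)]
    rw [div_lt_iff₀ hδ] at hKδ
    nlinarith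
  have h7 := hu _ (dir_mem nu) _ (dir_mem nv') hd
  rw [smul_neg, ho, norm_neg] at h7
  have h8 := (dist_le_pi_dist _ _ (c u)).trans_lt h7
  have h9 := hcc u nu
  have h10 := hcc v nv
  rw [← hcuv'] at h10
  rw [Real.dist_eq, Pi.neg_apply, abs_lt] at h8
  linarith [h8.2]

theorem borsuk_ulam {κ ι : Type} [Fintype κ] [Fintype ι]
    (hlt : Fintype.card ι < Fintype.card κ) (g : (κ → ℝ) → ι → ℝ)
    (hc : ContinuousOn g (sphere 0 1)) (ho : ∀ x, g (-x) = -g x) :
    ∃ x ∈ sphere (0 : κ → ℝ) 1, g x = 0 := by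
  classical
  obtain ⟨j⟩ : Nonempty (Option ι ↪ κ) :=
    Function.Embedding.nonempty_of_card_le (by rw [Fintype.card_option]; exact hlt)
  have : Nonempty κ := ⟨j none⟩
  have hg : ∀ a, ContinuousOn (fun x => g x a) (sphere 0 1) := fun a =>
    (continuous_apply a).comp_continuousOn hc
  let l : (κ → ℝ) → Option ι → ℝ := fun x o => o.elim (-∑ a, g x a) (g x)
  obtain ⟨x, hx, hle⟩ := cover (fun x c => ∑ o, if j o = c then l x o else 0)
    (continuousOn_pi.2 fun c => continuousOn_finsetSum _ fun o _ => by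
      split_ifs
      · cases o with
        | none => exact (continuousOn_finsetSum _ fun a _ => hg a).neg
        | some a => exact hg a
      · exact continuousOn_const)
    (fun x => by
      funext c
      rw [Pi.neg_apply, ← sum_neg_distrib]
      refine sum_congr rfl fun o _ => ?_
      split_ifs
      · cases o <;> simp [l, ho]
      · simp)
  have h1 : ∀ o, l x o ≤ 0 := fun o => by simpa using hle (j o)
  refine ⟨x, hx, funext fun a => ?_⟩
  have h2 : ∑ a, g x a = 0 :=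
    le_antisymm (sum_nonpos fun a _ => h1 (some a)) (by simpa [l] using h1 none)
  exact (sum_eq_zero_iff_of_nonpos fun a _ => h1 (some a)).1 h2 a (mem_univ a)

end Pool.Agent.P.MP_56563a_an
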