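import Pool.Agent.P.MP_56563a_an.BU

/-! Odd maps into the nonnegative cone of the real part of a family of nondegenerate complex
quadratic forms. -/

set_option autoImplicit false

namespace Pool.Agent.P.MP_56563a_an
open Finset Metric Matrix Filter Topology

variable {ι : Type} [Fintype ι]

/-- the real part of the quadratic form of a complex matrix -/
noncomputable def qf (A : Matrix ι ι ℂ) (w : ι → ℂ) : ℝ := (w ⬝ᵥ A *ᵥ w).re

/-- one step along the gradient of `qf A` -/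
noncomputable def push (ε : ℝ) (A : Matrix ι ι ℂ) (w : ι → ℂ) : ι → ℂ :=
  w + (ε : ℂ) • star (A *ᵥ w)

theorem qf_smul (A : Matrix ι ι ℂ) (r : ℝ) (w : ι → ℂ) :
    qf A ((r : ℂ) • w) = r ^ 2 * qf A w := by
  rw [qf, qf, mulVec_smul, dotProduct_smul, smul_dotProduct, smul_eq_mul, smul_eq_mul,
    Complex.re_ofReal_mul, Complex.re_ofReal_mul]
  ring

theorem push_smul (ε : ℝ) (A : Matrix ι ι ℂ) (r : ℝ) (w : ι → ℂ) :
    push ε A ((r : ℂ) • w) = (r : ℂ) • push ε A w := by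
  rw [push, push, mulVec_smul, star_smul, smul_add, smul_comm]
  simp

theorem qf_push {A : Matrix ι ι ℂ} (hA : A.IsSymm) (ε : ℝ) (w : ι → ℂ) :
    qf A (push ε A w) = qf A w +
      ε * (2 * ∑ i, Complex.normSq ((A *ᵥ w) i) + ε * qf A (star (A *ᵥ w))) := by
  have h1 : w ⬝ᵥ A *ᵥ star (A *ᵥ w) = star (A *ᵥ w) ⬝ᵥ A *ᵥ w := by
    rw [dotProduct_mulVec, ← mulVec_transpose, hA.eq, dotProduct_comm]
  have h2 : (star (A *ᵥ w) ⬝ᵥ A *ᵥ w).re = ∑ i, Complex.normSq ((A *ᵥ w) i) := by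
    rw [dotProduct, Complex.re_sum]
    refine sum_congr rfl fun i _ => ?_
    rw [Pi.star_apply, Complex.star_def, ← Complex.normSq_eq_conj_mul_self, Complex.ofReal_re]
  simp only [qf, push, mulVec_add, mulVec_smul, add_dotProduct, dotProduct_add, dotProduct_smul,
    smul_dotProduct, smul_eq_mul, Complex.add_re, Complex.re_ofReal_mul, h1, h2]
  ring

theorem qf_cont {Z : Type} [TopologicalSpace Z] {A : Z → Matrix ι ι ℂ} {w : Z → ι → ℂ}
    (hA : Continuous A) (hw : Continuous w) : Continuous fun z => qf (A z) (w z) :=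
  Complex.continuous_re.comp (hw.dotProduct (hA.matrix_mulVec hw))

theorem push_cont {Z : Type} [TopologicalSpace Z] (ε : ℝ) {A : Z → Matrix ι ι ℂ} {w : Z → ι → ℂ}
    (hA : Continuous A) (hw : Continuous w) : Continuous fun z => push ε (A z) (w z) :=
  hw.add ((hA.matrix_mulVec hw).star.const_smul (ε : ℂ))

theorem step {S : Type} [TopologicalSpace S] {K : Set S} (hK : IsCompact K)
    (A : ℝ × S → Matrix ι ι ℂ) (hA : Continuous A) (hs : ∀ p, (A p).IsSymm)
    (hi : ∀ p v, A p *ᵥ v = 0 → v = 0) (t0 : ℝ) :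
    ∃ ε : ℝ, ∀ᶠ t in 𝓝 t0, ∀ s ∈ K, ∀ w, w ≠ 0 →
      qf (A (t0, s)) w < qf (A (t, s)) (push ε (A (t0, s)) w) ∧
      qf (A (t, s)) w < qf (A (t0, s)) (push ε (A (t0, s)) w) := by
  have hK' := hK.prod (isCompact_sphere (0 : ι → ℂ) 1)
  have c0 : Continuous fun z : ℝ × S × (ι → ℂ) => A (t0, z.2.1) := by fun_prop
  have c1 : Continuous fun z : ℝ × S × (ι → ℂ) => A (z.1, z.2.1) := by fun_prop
  have c2 : Continuous fun z : ℝ × S × (ι → ℂ) => z.2.2 := by fun_prop
  have c3 := c0.matrix_mulVec c2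
  have h1 := hK'.eventually_forall_of_forall_eventually (x₀ := (0 : ℝ))
    (P := fun ε y => 0 < 2 * ∑ i, Complex.normSq ((A (t0, y.1) *ᵥ y.2) i) +
      ε * qf (A (t0, y.1)) (star (A (t0, y.1) *ᵥ y.2))) fun y hy => by
      refine ContinuousAt.eventually_lt continuousAt_const (Continuous.continuousAt ?_) ?_
      · exact (continuous_const.mul (continuous_finsetSum _ fun i _ =>
          Complex.continuous_normSq.comp ((continuous_apply i).comp c3))).add
          (continuous_fst.mul (qf_cont c0 c3.star))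
      · have h2 : A (t0, y.1) *ᵥ y.2 ≠ 0 := fun h => by
          have h3 := hy.2
          rw [hi _ _ h] at h3
          simp at h3
        obtain ⟨i, h3⟩ := Function.ne_iff.1 h2
        have := sum_pos' (fun j _ => Complex.normSq_nonneg ((A (t0, y.1) *ᵥ y.2) j))
          ⟨i, mem_univ _, Complex.normSq_pos.2 h3⟩
        simpa using this
  obtain ⟨ε, h2, h3⟩ := ((h1.filter_mono nhdsWithin_le_nhds).and
    (self_mem_nhdsWithin (s := Set.Ioi (0 : ℝ)))).exists
  have h4 := hK'.eventually_forall_of_forall_eventually (x₀ := t0)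
    (P := fun t y => qf (A (t0, y.1)) y.2 < qf (A (t, y.1)) (push ε (A (t0, y.1)) y.2) ∧
      qf (A (t, y.1)) y.2 < qf (A (t0, y.1)) (push ε (A (t0, y.1)) y.2)) fun y hy => by
      have h5 : qf (A (t0, y.1)) y.2 < qf (A (t0, y.1)) (push ε (A (t0, y.1)) y.2) := by
        rw [qf_push (hs _)]
        exact lt_add_of_pos_right _ (mul_pos h3 (h2 y hy))
      exact (ContinuousAt.eventually_lt (qf_cont c0 c2).continuousAt
        (qf_cont c1 (push_cont ε c0 c2)).continuousAt h5).and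
        (ContinuousAt.eventually_lt (qf_cont c1 c2).continuousAt
          (qf_cont c0 (push_cont ε c0 c2)).continuousAt h5)
  refine ⟨ε, h4.mono fun t ht s hs w hw => ?_⟩
  have h5 := norm_pos_iff.2 hw
  have h6 := ht (s, ((‖w‖⁻¹ : ℝ) : ℂ) • w) ⟨hs, dir_mem hw⟩
  simp only [push_smul, qf_smul] at h6
  have h7 : 0 < ‖w‖⁻¹ ^ 2 := by positivity
  exact ⟨lt_of_mul_lt_mul_left h6.1 h7.le, lt_of_mul_lt_mul_left h6.2 h7.le⟩

theorem exists_proj [DecidableEq ι] (B : Matrix ι ι ℂ) :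
    ∃ π : (ι → ℂ) → Fin (Fintype.card ι) → ℝ, Continuous π ∧ (∀ v, π (-v) = -π v) ∧
      ∀ v, π v = 0 → qf B v ≤ 0 := by
  obtain ⟨c, ⟨g⟩⟩ := QuadraticForm.equivalent_weightedSumSquares B.toQuadraticForm'
  rw [← Module.finrank_fintype_fun_eq_card ℂ]
  choose r hr using fun i => IsAlgClosed.exists_eq_mul_self (c i)
  have hg : Continuous g := g.toLinearEquiv.toLinearMap.continuous_of_finiteDimensional
  refine ⟨fun v i => (r i * g v i).re, by fun_prop, fun v => ?_, fun v hv => ?_⟩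
  · funext i
    simp [map_neg]
  · have h1 := g.map_app v
    rw [QuadraticMap.weightedSumSquares_apply] at h1
    have h2 : B.toQuadraticForm' v = v ⬝ᵥ B *ᵥ v := by
      simp [toQuadraticForm', toLinearMap₂'_apply']
    rw [qf, ← h2, ← h1, Complex.re_sum]
    refine sum_nonpos fun i _ => ?_
    have h3 : (r i * g v i).re = 0 := congrFun hv i
    rw [smul_eq_mul, hr i, mul_mul_mul_comm, Complex.mul_re, h3]
    nlinarith [mul_self_nonneg (r i * g v i).im]

theorem cone [DecidableEq ι] {κ X : Type} [Fintype κ] [NormedAddCommGroup X] [NormedSpace ℝ X]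
    (J : X → Matrix ι ι ℂ) (hJ : Continuous J) (hs : ∀ x, (J x).IsSymm)
    (hi : ∀ x v, J x *ᵥ v = 0 → v = 0) (x : (κ → ℝ) → X) (hx : Continuous x)
    (he : ∀ s, x (-s) = x s) (w : (κ → ℝ) → ι → ℂ) (hw : Continuous w)
    (ho : ∀ s, w (-s) = -w s)
    (h0 : ∀ s ∈ sphere (0 : κ → ℝ) 1, w s ≠ 0 ∧ 0 ≤ qf (J (x s)) (w s)) :
    Fintype.card κ ≤ Fintype.card ι := by
  let A : ℝ × (κ → ℝ) → Matrix ι ι ℂ := fun p => J (p.1 • x p.2)
  have hA : Continuous A := by fun_prop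
  let P : ℝ → Prop := fun t => ∃ w : (κ → ℝ) → ι → ℂ, Continuous w ∧ (∀ s, w (-s) = -w s) ∧
    ∀ s ∈ sphere (0 : κ → ℝ) 1, w s ≠ 0 ∧ 0 ≤ qf (A (t, s)) (w s)
  let P' : ℝ → Prop := fun t => ∃ w : (κ → ℝ) → ι → ℂ, Continuous w ∧ (∀ s, w (-s) = -w s) ∧
    ∀ s ∈ sphere (0 : κ → ℝ) 1, 0 < qf (A (t, s)) (w s)
  have hP : ∀ t, P' t → P t := fun t ⟨w, h1, h2, h3⟩ => ⟨w, h1, h2, fun s hs =>
    ⟨fun h => by simpa [h, qf] using h3 s hs, (h3 s hs).le⟩⟩
  have key : ∀ t0, ∀ᶠ t in 𝓝 t0, (P t0 → P' t) ∧ (P t → P' t0) := fun t0 => by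
    obtain ⟨ε, h⟩ := step (isCompact_sphere (0 : κ → ℝ) 1) A hA (fun _ => hs _)
      (fun _ => hi _) t0
    have c0 : Continuous fun s => A (t0, s) := by fun_prop
    have e0 : ∀ s v, push ε (A (t0, -s)) (-v) = -push ε (A (t0, s)) v := fun s v => by
      simp only [A, he, push, mulVec_neg, star_neg, smul_neg, neg_add]
    refine h.mono fun t ht => ⟨fun ⟨w, h1, h2, h3⟩ => ?_, fun ⟨w, h1, h2, h3⟩ => ?_⟩
    · exact ⟨fun s => push ε (A (t0, s)) (w s), push_cont ε c0 h1,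
        fun s => by simp only [h2, e0],
        fun s hs => (h3 s hs).2.trans_lt (ht s hs _ (h3 s hs).1).1⟩
    · exact ⟨fun s => push ε (A (t0, s)) (w s), push_cont ε c0 h1,
        fun s => by simp only [h2, e0],
        fun s hs => (h3 s hs).2.trans_lt (ht s hs _ (h3 s hs).1).2⟩
  have h1 : P 1 → P 0 := PreconnectedSpace.induction₂' (fun a b => P a → P b)
    (fun t0 => (key t0).mono fun t ht => ⟨fun h => hP _ (ht.1 h), fun h => hP _ (ht.2 h)⟩)
    ⟨fun _ _ _ h1 h2 h => h2 (h1 h)⟩ 1 0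
  obtain ⟨v, v1, v2, v3⟩ := (key 0).self_of_nhds.1
    (h1 ⟨w, hw, ho, fun s hs => by simpa [A] using h0 s hs⟩)
  obtain ⟨π, p1, p2, p3⟩ := exists_proj (J 0)
  by_contra hlt
  obtain ⟨s, s1, s2⟩ := borsuk_ulam (ι := Fin (Fintype.card ι)) (κ := κ) (by simpa using hlt)
    (fun s => π (v s)) (p1.comp v1).continuousOn fun s => by rw [v2, p2]
  have h2 := v3 s s1
  simp only [A, zero_smul] at h2
  exact absurd (p3 _ s2) (not_le.2 h2)

end Pool.Agent.P.MP_56563a_an
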