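import Pool.Agent.P.MP_56563a_an.Cone

/-! The block Jacobi matrix of an alternating product of elementary symplectic matrices. -/

set_option autoImplicit false

namespace Pool.Agent.P.MP_56563a_an
open Finset Matrix Complex

/-- elementary block matrix, lower for odd `k` and upper for even `k` -/
def E (k : ℕ) (S : Matrix (Fin 2) (Fin 2) ℂ) : Matrix (Fin 2 ⊕ Fin 2) (Fin 2 ⊕ Fin 2) ℂ :=
  if k % 2 = 1 then fromBlocks 1 0 S 1 else fromBlocks 1 S 0 1

/-- partial products -/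
noncomputable def Q (s : ℕ) (S : ℕ → Matrix (Fin 2) (Fin 2) ℂ) :
    ℕ → Matrix (Fin 2 ⊕ Fin 2) (Fin 2 ⊕ Fin 2) ℂ
  | 0 => 1
  | n + 1 => Q s S n * E (n + s) (S n)

/-- two consecutive terms of a sequence as a row vector -/
def st (s : ℕ) (y : ℕ → Fin 2 → ℂ) (k : ℕ) : Fin 2 ⊕ Fin 2 → ℂ :=
  if (k + s) % 2 = 1 then Sum.elim (y k) (y (k + 1)) else Sum.elim (y (k + 1)) (y k)

theorem E_zero (k : ℕ) : E k 0 = 1 := by
  unfold E
  split_ifs <;> exact fromBlocks_one

theorem E_mem (k : ℕ) {S : Matrix (Fin 2) (Fin 2) ℂ} (hS : S.IsSymm) :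
    E k S ∈ symplecticGroup (Fin 2) ℂ := by
  unfold E
  split_ifs <;> simp [SymplecticGroup.mem_iff, J, fromBlocks_transpose, fromBlocks_multiply, hS.eq]

theorem Q_mem (s : ℕ) {S : ℕ → Matrix (Fin 2) (Fin 2) ℂ} (hS : ∀ k, (S k).IsSymm) (n : ℕ) :
    Q s S n ∈ symplecticGroup (Fin 2) ℂ := by
  induction n with
  | zero => exact one_mem _
  | succ n ih => exact mul_mem ih (E_mem _ (hS n))

theorem Q_congr (s : ℕ) {S S' : ℕ → Matrix (Fin 2) (Fin 2) ℂ} (n : ℕ)
    (h : ∀ k < n, S k = S' k) : Q s S n = Q s S' n := by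
  induction n with
  | zero => rfl
  | succ n ih => rw [Q, Q, ih fun k hk => h k (by omega), h n (by omega)]

theorem Q_add (s m : ℕ) (hs : (m + s) % 2 = 1) (S : ℕ → Matrix (Fin 2) (Fin 2) ℂ) (N : ℕ) :
    Q s S (m + N) = Q s S m * (List.ofFn fun k : Fin N => E (k.1 + 1) (S (m + k))).prod := by
  induction N with
  | zero => simp
  | succ N ih =>
    rw [← add_assoc, Q, ih, List.ofFn_succ', List.prod_concat, mul_assoc]
    have : E (m + N + s) = E (N + 1) := by
      funext T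
      simp only [E, show (m + N + s) % 2 = 1 ↔ (N + 1) % 2 = 1 by omega]
    simp [this]

theorem Q_pad (s n : ℕ) (S : ℕ → Matrix (Fin 2) (Fin 2) ℂ) (h : ∀ k, n ≤ k → S k = 0) (j : ℕ) :
    Q s S (n + j) = Q s S n := by
  induction j with
  | zero => rfl
  | succ j ih => rw [← add_assoc, Q, ih, h _ (by omega), E_zero, mul_one]

theorem run (s : ℕ) (S : ℕ → Matrix (Fin 2) (Fin 2) ℂ) (y : ℕ → Fin 2 → ℂ) (n : ℕ)
    (h : ∀ k < n, y (k + 2) = y k + y (k + 1) ᵥ* S k) : st s y n = st s y 0 ᵥ* Q s S n := by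
  induction n with
  | zero => simp [Q]
  | succ n ih =>
    rw [Q, ← vecMul_vecMul, ← ih fun k hk => h k (by omega), st, st, E, h n (by omega)]
    by_cases h1 : (n + s) % 2 = 1
    · rw [if_pos h1, if_pos h1, if_neg (by omega), vecMul_fromBlocks]
      simp
    · rw [if_neg h1, if_neg h1, if_pos (by omega), vecMul_fromBlocks]
      simp [add_comm]

theorem kill (s : ℕ) (S : ℕ → Matrix (Fin 2) (Fin 2) ℂ) (y : ℕ → Fin 2 → ℂ) (n : ℕ)
    (hn : n % 2 = 0) (hQ : Q s S (n + 2) = 1) (h0 : y 0 = 0) (h1 : y (n + 1) = 0)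
    (h : ∀ k < n, y (k + 2) = y k + y (k + 1) ᵥ* S k) : ∀ k ≤ n + 1, y k = 0 := by
  have h2 := run s S (fun k => if k ≤ n + 1 then y k else if k = n + 2 then y n
    else y n ᵥ* S (n + 1)) (n + 2) fun k hk => by
      rcases lt_trichotomy k n with h3 | rfl | h3
      · rw [if_pos (by omega), if_pos (by omega), if_pos (by omega), h k h3]
      · simp [h1]
      · obtain rfl : k = n + 1 := by omega
        simp [h1]
  rw [hQ, vecMul_one, st, st] at h2
  have h3 : y n = 0 := by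
    by_cases h4 : (0 + s) % 2 = 1
    · rw [if_pos h4, if_pos (by omega)] at h2
      simpa [h0] using congrArg (· ∘ Sum.inl) h2
    · rw [if_neg h4, if_neg (by omega)] at h2
      simpa [h0] using congrArg (· ∘ Sum.inr) h2
  have h4 : ∀ i ≤ n, y (n - i) = 0 ∧ y (n - i + 1) = 0 := by
    intro i
    induction i with
    | zero => exact fun _ => ⟨h3, h1⟩
    | succ i ih =>
      intro hi
      obtain ⟨h5, h6⟩ := ih (by omega)
      have e : n - i = n - (i + 1) + 1 := by omega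
      rw [e] at h5 h6
      have h7 := h (n - (i + 1)) (by omega)
      rw [h5, h6, zero_vecMul, add_zero] at h7
      exact ⟨h7.symm, h5⟩
  intro k hk
  rcases Nat.lt_or_ge k (n + 1) with h5 | h5
  · have := (h4 (n - k) (by omega)).1
    rwa [show n - (n - k) = k by omega] at this
  · rwa [show k = n + 1 by omega]

variable {n : ℕ}

/-- extension by zero, shifted by one -/
def ex (w : Fin n × Fin 2 → ℂ) : ℕ → Fin 2 → ℂ
  | 0 => 0
  | j + 1 => fun a => if h : j < n then w (⟨j, h⟩, a) else 0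

/-- block diagonal matrix -/
def Dg (n : ℕ) (V : ℕ → Matrix (Fin 2) (Fin 2) ℂ) : Matrix (Fin n × Fin 2) (Fin n × Fin 2) ℂ :=
  of fun p q => if p.1 = q.1 then V p.1 p.2 q.2 else 0

/-- block shift -/
def Sh (n : ℕ) : Matrix (Fin n × Fin 2) (Fin n × Fin 2) ℂ :=
  of fun p q => if p.1.1 + 1 = q.1.1 ∧ p.2 = q.2 then 1 else 0

/-- block Jacobi matrix -/
noncomputable def Jac (n : ℕ) (V : ℕ → Matrix (Fin 2) (Fin 2) ℂ) :
    Matrix (Fin n × Fin 2) (Fin n × Fin 2) ℂ := Dg n V - (Sh n + (Sh n)ᵀ)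

theorem ex_succ (w : Fin n × Fin 2 → ℂ) (j : Fin n) (a : Fin 2) : ex w (j + 1) a = w (j, a) := by
  simp [ex]

theorem Dg_mul (V : ℕ → Matrix (Fin 2) (Fin 2) ℂ) (w : Fin n × Fin 2 → ℂ) (j : Fin n)
    (a : Fin 2) : (Dg n V *ᵥ w) (j, a) = (V j *ᵥ ex w (j + 1)) a := by
  simp only [mulVec, dotProduct, Dg, of_apply, Fintype.sum_prod_type, ex_succ]
  rw [sum_comm]
  simp

theorem Sh_mul (w : Fin n × Fin 2 → ℂ) (j : Fin n) (a : Fin 2) :
    (Sh n *ᵥ w) (j, a) = ex w (j + 2) a := by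
  simp only [mulVec, dotProduct, Sh, of_apply, ex, ite_mul, one_mul, zero_mul]
  split_ifs with h
  · rw [sum_eq_single (⟨j + 1, h⟩, a)]
    · simp
    · rintro ⟨k, b⟩ - h1
      refine if_neg fun h2 => h1 ?_
      obtain ⟨h2, rfl⟩ := h2
      exact Prod.ext (Fin.ext h2.symm) rfl
    · simp
  · refine sum_eq_zero fun q _ => if_neg fun h2 => h ?_
    rw [h2.1]
    exact q.1.2

theorem Sh_mul' (w : Fin n × Fin 2 → ℂ) (j : Fin n) (a : Fin 2) :
    ((Sh n)ᵀ *ᵥ w) (j, a) = ex w j a := by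
  simp only [mulVec, dotProduct, Sh, of_apply, transpose_apply, ite_mul, one_mul, zero_mul]
  obtain ⟨j, hj⟩ := j
  cases j with
  | zero => simp [ex]
  | succ j =>
    rw [sum_eq_single (⟨j, by omega⟩, a)]
    · simp [ex, show j < n by omega]
    · rintro ⟨k, b⟩ - h1
      refine if_neg fun h2 => h1 ?_
      obtain ⟨h2, rfl⟩ := h2
      exact Prod.ext (Fin.ext (Nat.succ_injective h2)) rfl
    · simp

theorem Jac_symm {V : ℕ → Matrix (Fin 2) (Fin 2) ℂ} (hV : ∀ k, (V k).IsSymm) :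
    (Jac n V).IsSymm := by
  refine IsSymm.sub (IsSymm.ext fun p q => ?_) (isSymm_add_transpose_self _)
  simp only [Dg, of_apply]
  by_cases h : p.1 = q.1
  · rw [if_pos h, if_pos h.symm, h, (hV _).apply]
  · rw [if_neg h, if_neg (Ne.symm h)]

theorem Jac_cont {X : Type} [TopologicalSpace X] {V : X → ℕ → Matrix (Fin 2) (Fin 2) ℂ}
    (hV : ∀ k, Continuous fun x => V x k) : Continuous fun x => Jac n (V x) := by
  refine Continuous.sub (continuous_matrix fun p q => ?_) continuous_const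
  simp only [Dg, of_apply]
  split_ifs
  · exact (hV _).matrix_elem _ _
  · exact continuous_const

theorem Jac_inj (s : ℕ) {S : ℕ → Matrix (Fin 2) (Fin 2) ℂ} (hS : ∀ k, (S k).IsSymm)
    (hn : n % 2 = 0) (hQ : Q s S (n + 2) = 1) (w : Fin n × Fin 2 → ℂ)
    (hw : Jac n (fun k => -I • S k) *ᵥ w = 0) : w = 0 := by
  have h := kill s S (fun k => I ^ k • ex w k) n hn hQ (by simp [ex])
    (by funext a; simp [ex]) fun k hk => by
      funext a
      have h1 := congrFun hw (⟨k, hk⟩, a)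
      rw [Jac, sub_mulVec, add_mulVec, Pi.sub_apply, Pi.add_apply, Dg_mul, Sh_mul, Sh_mul',
        smul_mulVec] at h1
      rw [smul_vecMul, ← mulVec_transpose, (hS k).eq]
      simp only [Pi.add_apply, Pi.smul_apply, smul_eq_mul, Pi.zero_apply] at h1 ⊢
      linear_combination I ^ k * h1 + I ^ k * ex w (k + 2) a * I_sq
  funext ⟨j, a⟩
  have h1 := congrFun (h (j + 1) (by omega)) a
  simpa [ex_succ] using h1

theorem qf_Jac (V : ℕ → Matrix (Fin 2) (Fin 2) ℂ) (z : ℕ → Fin 2 → ℂ) (hz : z n = 0) :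
    qf (Jac n V) (fun p => z p.1 p.2) =
      ∑ j ∈ range n, (z j ⬝ᵥ V j *ᵥ z j - 2 * z j ⬝ᵥ z (j + 1)).re := by
  set w : Fin n × Fin 2 → ℂ := fun p => z p.1 p.2 with hw
  have e : ∀ j ≤ n, ex w (j + 1) = z j := fun j hj => by
    funext a
    simp only [ex]
    split_ifs with h
    · rfl
    · rw [show j = n by omega, hz]; rfl
  have h1 : w ⬝ᵥ (Sh n)ᵀ *ᵥ w = w ⬝ᵥ Sh n *ᵥ w := by
    rw [mulVec_transpose, dotProduct_comm, ← dotProduct_mulVec]
  rw [qf, Jac, sub_mulVec, add_mulVec, dotProduct_sub, dotProduct_add, h1, ← two_mul, ← re_sum,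
    ← Fin.sum_univ_eq_sum_range fun j => z j ⬝ᵥ V j *ᵥ z j - 2 * z j ⬝ᵥ z (j + 1),
    sum_sub_distrib, ← mul_sum]
  congr 2
  · rw [dotProduct, Fintype.sum_prod_type]
    refine sum_congr rfl fun j _ => sum_congr rfl fun a _ => ?_
    rw [Dg_mul, e j j.2.le]
  · congr 1
    rw [dotProduct, Fintype.sum_prod_type]
    refine sum_congr rfl fun j _ => sum_congr rfl fun a _ => ?_
    rw [Sh_mul, e (j + 1) j.2]

end Pool.Agent.P.MP_56563a_an
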