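import Pool.Agent.P.MP_56563a_an.Jac

/-! The example and the test sphere. -/

set_option autoImplicit false

namespace Pool.Agent.P.MP_56563a_an
open Finset Matrix Complex Metric

/-- diagonal of the Laplacian of a path -/
noncomputable def lam (m j : ℕ) : ℂ := (if 0 < j then 1 else 0) + if j + 1 < m then 1 else 0

/-- the free diagonal entries -/
noncomputable def mu {d : ℕ} (x : Fin d → ℂ) (j : ℕ) : ℂ := if h : j < d then x ⟨j, h⟩ else 2

theorem pos (m n : ℕ) (hmn : m ≤ n) (μ : ℕ → ℂ) (V : ℕ → Matrix (Fin 2) (Fin 2) ℂ)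
    (hV : ∀ j < m, V j = diagonal ![lam m j, μ j]) (z : ℕ → Fin 2 → ℂ)
    (h0 : ∀ j, m ≤ j → z j = 0) (h1 : ∀ j, j + 1 < m → (z j 0).im = (z (j + 1) 0).im)
    (h2 : ∀ j, 2 * normSq (z j 1) ≤ (μ j * z j 1 ^ 2).re) :
    0 ≤ qf (Jac n V) (fun p => z p.1 p.2) := by
  rw [qf_Jac V z (h0 n hmn)]
  let a : ℕ → ℝ := fun j => (if 0 < j then (z j 0 ^ 2).re else 0) + normSq (z j 1)
  have h3 : 0 ≤ ∑ j ∈ range n, (a j - a (j + 1)) := by
    rw [sum_range_sub']
    simp [a, h0 n hmn, normSq_nonneg]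
  refine h3.trans (sum_le_sum fun j _ => ?_)
  rcases Nat.lt_or_ge j m with hj | hj
  · have e : z j ⬝ᵥ V j *ᵥ z j - 2 * z j ⬝ᵥ z (j + 1) = lam m j * z j 0 ^ 2 + μ j * z j 1 ^ 2 -
        2 * (z j 0 * z (j + 1) 0) - 2 * (z j 1 * z (j + 1) 1) := by
      simp [hV j hj, dotProduct, mulVec_diagonal]
      ring
    have h4 := h2 j
    have h5 : (2 * (z j 1 * z (j + 1) 1)).re ≤ normSq (z j 1) + normSq (z (j + 1) 1) := by
      simp only [normSq_apply, mul_re, re_ofNat, im_ofNat]
      nlinarith [sq_nonneg ((z j 1).re - (z (j + 1) 1).re), sq_nonneg ((z j 1).im + (z (j + 1) 1).im)]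
    have h6 : (if 0 < j then (z j 0 ^ 2).re else 0) - (z (j + 1) 0 ^ 2).re ≤
        (lam m j * z j 0 ^ 2).re - (2 * (z j 0 * z (j + 1) 0)).re := by
      rw [lam, add_mul, add_re, ite_mul, one_mul, zero_mul, apply_ite re, zero_re]
      by_cases h7 : j + 1 < m
      · simp only [if_pos h7, one_mul, sq, mul_re, re_ofNat, im_ofNat, h1 j h7]
        nlinarith [sq_nonneg ((z j 0).re - (z (j + 1) 0).re)]
      · simp [h7, h0 (j + 1) (by omega)]
    simp only [e, a, sub_re, add_re, if_pos (Nat.succ_pos j)]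
    linarith
  · simp [a, h0 j hj, h0 (j + 1) (by omega)]

variable {m d : ℕ}

/-- real coordinates along the two chains -/
def cu (s : (Fin m × Fin 2) ⊕ Option (Fin d) → ℝ) (j : ℕ) (a : Fin 2) : ℝ :=
  if h : j < m then s (Sum.inl (⟨j, h⟩, a)) else 0

/-- imaginary parts at the free places -/
def cr (s : (Fin m × Fin 2) ⊕ Option (Fin d) → ℝ) (j : ℕ) : ℝ :=
  if h : j < d then s (Sum.inr (some ⟨j, h⟩)) else 0

/-- complex coordinates along the second chain -/
noncomputable def cv (s : (Fin m × Fin 2) ⊕ Option (Fin d) → ℝ) (j : ℕ) : ℂ :=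
  cu s j 1 + cr s j * I

/-- cut-off factor -/
noncomputable def cp (s : (Fin m × Fin 2) ⊕ Option (Fin d) → ℝ) (j : ℕ) : ℝ :=
  if j < d then max 0 (normSq (cv s j) - 1 / 4) else 1

/-- the test vector -/
noncomputable def cz (s : (Fin m × Fin 2) ⊕ Option (Fin d) → ℝ) (j : ℕ) : Fin 2 → ℂ :=
  ![if j < m then cu s j 0 + s (Sum.inr none) * I else 0, cp s j * cv s j]

/-- the parameter attached to a point of the sphere -/
noncomputable def cx (s : (Fin m × Fin 2) ⊕ Option (Fin d) → ℝ) (j : Fin d) : ℂ :=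
  8 * (starRingEnd ℂ) (cv s j) ^ 2

theorem cu_cont (j : ℕ) (a : Fin 2) :
    Continuous fun s : (Fin m × Fin 2) ⊕ Option (Fin d) → ℝ => cu s j a := by
  unfold cu; split_ifs <;> fun_prop

theorem cr_cont (j : ℕ) :
    Continuous fun s : (Fin m × Fin 2) ⊕ Option (Fin d) → ℝ => cr s j := by
  unfold cr; split_ifs <;> fun_prop

theorem cv_cont (j : ℕ) :
    Continuous fun s : (Fin m × Fin 2) ⊕ Option (Fin d) → ℝ => cv s j := by
  have := cu_cont (m := m) (d := d) j 1
  have := cr_cont (m := m) (d := d) j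
  unfold cv; fun_prop

theorem cp_cont (j : ℕ) :
    Continuous fun s : (Fin m × Fin 2) ⊕ Option (Fin d) → ℝ => cp s j := by
  have := cv_cont (m := m) (d := d) j
  unfold cp; split_ifs <;> fun_prop

theorem cz_cont (j : ℕ) (a : Fin 2) :
    Continuous fun s : (Fin m × Fin 2) ⊕ Option (Fin d) → ℝ => cz s j a := by
  have := cu_cont (m := m) (d := d) j 0
  have := cv_cont (m := m) (d := d) j
  have := cp_cont (m := m) (d := d) j
  unfold cz
  fin_cases a
  · simp only [Fin.zero_eta, cons_val_zero]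
    split_ifs <;> fun_prop
  · simp only [Fin.mk_one, cons_val_one, cons_val_fin_one]
    fun_prop

theorem cx_cont : Continuous fun s : (Fin m × Fin 2) ⊕ Option (Fin d) → ℝ => cx s := by
  refine continuous_pi fun j => ?_
  have := cv_cont (m := m) (d := d) j
  unfold cx; fun_prop

variable (s : (Fin m × Fin 2) ⊕ Option (Fin d) → ℝ)

theorem cu_neg (j : ℕ) (a : Fin 2) : cu (-s) j a = -cu s j a := by
  unfold cu; split_ifs <;> simp

theorem cv_neg (j : ℕ) : cv (-s) j = -cv s j := by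
  have : cr (-s) j = -cr s j := by unfold cr; split_ifs <;> simp
  rw [cv, cv, cu_neg, this]; push_cast; ring

theorem cz_neg (j : ℕ) : cz (-s) j = -cz s j := by
  have : cp (-s) j = cp s j := by rw [cp, cp, cv_neg, normSq_neg]
  funext a
  fin_cases a
  · simp only [cz, Fin.zero_eta, cons_val_zero, Pi.neg_apply, cu_neg]
    split_ifs
    · push_cast; ring
    · simp
  · simp [cz, this, cv_neg]

theorem cx_neg : cx (-s) = cx s := by
  funext j
  simp [cx, cv_neg]

theorem cz_zero (hd : d ≤ m) (j : ℕ) (hj : m ≤ j) : cz s j = 0 := by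
  funext a
  fin_cases a <;> simp [cz, cv, cu, cr, show ¬ j < m by omega, show ¬ j < d by omega]

theorem cz_im (j : ℕ) (hj : j + 1 < m) : (cz s j 0).im = (cz s (j + 1) 0).im := by
  simp [cz, hj, show j < m by omega]

theorem cz_sq (j : ℕ) : 2 * normSq (cz s j 1) ≤ (mu (cx s) j * cz s j 1 ^ 2).re := by
  have e : cz s j 1 = cp s j * cv s j := rfl
  rw [e, mu, cp]
  split_ifs with h
  · have e1 : cx s ⟨j, h⟩ * (((max 0 (normSq (cv s j) - 1 / 4) : ℝ) : ℂ) * cv s j) ^ 2 =
        ((8 * (max 0 (normSq (cv s j) - 1 / 4)) ^ 2 * normSq (cv s j) ^ 2 : ℝ) : ℂ) := by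
      rw [cx, ofReal_mul, ofReal_mul, ofReal_pow, ofReal_pow, normSq_eq_conj_mul_self]
      push_cast
      ring
    rw [e1, ofReal_re, normSq_mul, normSq_ofReal]
    have h1 := normSq_nonneg (cv s j)
    rcases le_total (normSq (cv s j) - 1 / 4) 0 with h2 | h2
    · rw [max_eq_left h2]
      simp
    · rw [max_eq_right h2]
      nlinarith [mul_nonneg (mul_nonneg h2 (mul_nonneg h2 h2)) h1]
  · simp [cv, cr, h, sq]

theorem cz_ne (hd : d ≤ m) (hm : 0 < m) (hs : s ∈ sphere 0 1) : ∃ j < m, cz s j ≠ 0 := by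
  by_contra hcon
  push Not at hcon
  have h0 : ∀ j < m, cu s j 0 = 0 ∧ s (Sum.inr none) = 0 := fun j hj => by
    simpa [cz, hj, Complex.ext_iff] using congrFun (hcon j hj) 0
  have h1 : ∀ j < m, |cu s j 1| < 1 ∧ |cr s j| < 1 := fun j hj => by
    have h2 : normSq (cv s j) ≤ 1 / 4 := by
      have h3 : (cp s j : ℂ) * cv s j = 0 := congrFun (hcon j hj) 1
      rcases mul_eq_zero.1 h3 with h4 | h4
      · rw [ofReal_eq_zero, cp] at h4
        split_ifs at h4
        · linarith [le_max_right 0 (normSq (cv s j) - 1 / 4)]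
        · simp at h4
      · rw [h4]; norm_num
    rw [cv, normSq_add_mul_I] at h2
    constructor <;> rw [← sq_lt_one_iff_abs_lt_one] <;> nlinarith [sq_nonneg (cu s j 1),
      sq_nonneg (cr s j)]
  refine absurd (mem_sphere_zero_iff_norm.1 hs) ((pi_norm_lt_iff one_pos).2 ?_).ne
  rintro (⟨j, a⟩ | _ | j)
  · fin_cases a
    · have := (h0 j j.2).1
      simp only [cu, j.2, dif_pos] at this
      simp [this]
    · simpa [cu] using (h1 j j.2).1
  · simp [(h0 0 hm).2]
  · simpa [cr] using (h1 j (by omega)).2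

/-- the blocks of the example -/
noncomputable def Y (m : ℕ) (x : Fin d → ℂ) (j : ℕ) : Matrix (Fin 2) (Fin 2) ℂ :=
  I • diagonal ![lam m j, mu x j]

theorem Y_symm (m : ℕ) (x : Fin d → ℂ) (j : ℕ) : (Y m x j).IsSymm :=
  (isSymm_diagonal _).smul _

theorem bound (t n : ℕ) (hd : d ≤ m) (hm : 0 < m) (hmn : m ≤ n) (hn : n % 2 = 0)
    (S : (Fin d → ℂ) → ℕ → Matrix (Fin 2) (Fin 2) ℂ) (hc : ∀ k, Continuous fun x => S x k)
    (hS : ∀ x k, (S x k).IsSymm) (hY : ∀ x, ∀ k < m, S x k = Y m x k)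
    (hQ : ∀ x, Q t (S x) (n + 2) = 1) : 2 * m + d + 1 ≤ 2 * n := by
  have h := cone (κ := (Fin m × Fin 2) ⊕ Option (Fin d)) (fun x => Jac n fun k => -I • S x k)
    (Jac_cont fun k => (hc k).const_smul (-I)) (fun x => Jac_symm fun k => (hS x k).smul _)
    (fun x => Jac_inj t (hS x) hn (hQ x)) cx cx_cont cx_neg (fun s p => cz s p.1 p.2)
    (continuous_pi fun p => cz_cont _ _) (fun s => by funext p; simp [cz_neg]) fun s hs => by
      constructor
      · obtain ⟨j, h1, h2⟩ := cz_ne s hd hm hs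
        exact fun h => h2 (funext fun a => congrFun h (⟨j, by omega⟩, a))
      · refine pos m n hmn (mu (cx s)) _ (fun j hj => ?_) (cz s) (cz_zero s hd) (cz_im s) (cz_sq s)
        rw [hY _ j hj, Y, smul_smul, neg_mul, I_mul_I, neg_neg, one_smul]
  simp only [Fintype.card_sum, Fintype.card_prod, Fintype.card_fin, Fintype.card_option] at h
  omega

theorem Y_diff (m j : ℕ) (a b : Fin 2) : Differentiable ℂ fun x : Fin d → ℂ => Y m x j a b := by
  have : Differentiable ℂ fun x : Fin d → ℂ => mu x j := by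
    unfold mu; split_ifs <;> fun_prop
  fin_cases a <;> fin_cases b <;> simp [Y] <;> fun_prop

theorem QY_diff (t m n : ℕ) (a b : Fin 2 ⊕ Fin 2) :
    Differentiable ℂ fun x : Fin d → ℂ => Q t (Y m x) n a b := by
  induction n generalizing a b with
  | zero => simp [Q]
  | succ n ih =>
    simp only [Q, mul_apply]
    refine Differentiable.fun_sum fun c _ => (ih a c).mul ?_
    unfold E
    split_ifs <;> rcases c with c | c <;> rcases b with b | b <;> simp [Y_diff]

end Pool.Agent.P.MP_56563a_an
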